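import Pool.Agent.Q99.SR.Perm

/-!
# The groups `{(σ, τ) ∈ S_n × D_8 : sign σ = ε(τ)}` are uniformly semi-rational
-/

set_option autoImplicit false

open Equiv Equiv.Perm

namespace Pool.Agent.Q99.SR

/-- For every `x`, every generator of `⟨x⟩` is conjugate to `x` or to `x ^ m`. -/
def IsSemirationalWith (G : Type*) [Group G] (m : ℤ) : Prop :=
  ∀ x y : G, Subgroup.zpowers y = Subgroup.zpowers x → IsConj x y ∨ IsConj (x ^ m) y

/-- The sign of elements of the dihedral group of order `8`: rotations have sign `1`, reflections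
have sign `-1`. -/
def eps : DihedralGroup 4 →* ℤˣ where
  toFun x := match x with
    | .r _ => 1
    | .sr _ => -1
  map_one' := rfl
  map_mul' x y := by
    cases x <;> cases y <;> rfl

/-- The product of the signs. -/
def del (n : ℕ) : Perm (Fin n) × DihedralGroup 4 →* ℤˣ :=
  (sign.comp (MonoidHom.fst _ _)) * (eps.comp (MonoidHom.snd _ _))

theorem del_apply (n : ℕ) (x : Perm (Fin n) × DihedralGroup 4) :
    del n x = sign x.1 * eps x.2 := rfl

/-- The group. -/
abbrev GG (n : ℕ) : Subgroup (Perm (Fin n) × DihedralGroup 4) := (del n).ker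

instance (n : ℕ) : Finite (GG n) := inferInstance

theorem dih_dich (τ : DihedralGroup 4) : (∃ d, eps d = -1 ∧ d * τ = τ * d) ∨
    (orderOf τ = 4 ∧ ∃ d, eps d = -1 ∧ d * τ * d⁻¹ = τ ^ 3) := by
  by_cases h : τ = .r 1 ∨ τ = .r 3
  · right
    constructor
    · apply orderOf_eq_prime_pow (p := 2) (n := 1)
      · rcases h with rfl | rfl <;> decide
      · rcases h with rfl | rfl <;> decide
    · refine ⟨.sr 0, rfl, ?_⟩
      rcases h with rfl | rfl <;> decide
  · left
    revert τ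
    decide

theorem dih_pow4 : ∀ τ : DihedralGroup 4, τ ^ 4 = 1 := by decide

theorem dih_conj3 : ∀ τ : DihedralGroup 4, ∃ d, d * τ * d⁻¹ = τ ^ 3 := by decide

theorem dih_rat (τ : DihedralGroup 4) {j : ℕ} (hj : j.Coprime (orderOf τ)) : IsConj τ (τ ^ j) := by
  have h4 : orderOf τ ∣ 4 := orderOf_dvd_of_pow_eq_one (dih_pow4 τ)
  have hle : orderOf τ ≤ 4 := Nat.le_of_dvd (by norm_num) h4
  have hpos : 0 < orderOf τ := Nat.pos_of_dvd_of_pos h4 (by norm_num)
  rw [← pow_mod_orderOf τ j]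
  have hc : (j % orderOf τ).Coprime (orderOf τ) := by
    rwa [Nat.Coprime, ← Nat.gcd_rec, Nat.gcd_comm]
  generalize hk : j % orderOf τ = k at hc
  have hk' : k < orderOf τ := hk ▸ Nat.mod_lt _ hpos
  interval_cases hn : orderOf τ
  · have : τ = 1 := orderOf_eq_one_iff.mp hn
    subst this
    rw [one_pow]
  · interval_cases k
    · exact absurd hc (by decide)
    · rw [pow_one]
  · exact absurd h4 (by decide)
  · interval_cases k
    · exact absurd hc (by decide)
    · rw [pow_one]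
    · exact absurd hc (by decide)
    · obtain ⟨d, hd⟩ := dih_conj3 τ
      exact isConj_iff.mpr ⟨d, hd⟩

theorem isConj_prod {A B : Type*} [Group A] [Group B] {a a' : A} {b b' : B} (h1 : IsConj a a')
    (h2 : IsConj b b') : IsConj (a, b) (a', b') := by
  obtain ⟨c, hc⟩ := isConj_iff.mp h1
  obtain ⟨d, hd⟩ := isConj_iff.mp h2
  exact isConj_iff.mpr ⟨(c, d), Prod.ext hc hd⟩

/-- Generators of the same cyclic subgroup of `S_n × D_8` are conjugate there. -/
theorem prod_rat {n : ℕ} (x y : Perm (Fin n) × DihedralGroup 4)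
    (h : Subgroup.zpowers y = Subgroup.zpowers x) : IsConj x y := by
  have h1 : y ∈ Subgroup.zpowers x := h ▸ Subgroup.mem_zpowers y
  rw [← mem_powers_iff_mem_zpowers] at h1
  obtain ⟨j, rfl⟩ := h1
  have h2 : orderOf (x ^ j) = orderOf x := by
    rw [← Nat.card_zpowers, ← Nat.card_zpowers, h]
  have h3 : j.Coprime (orderOf x) := by
    rw [orderOf_pow] at h2
    have hpos := orderOf_pos x
    have h4 : (orderOf x).gcd j = 1 := by
      by_contra hne
      have hgpos : 0 < (orderOf x).gcd j := Nat.gcd_pos_of_pos_left _ hpos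
      have : orderOf x / (orderOf x).gcd j < orderOf x :=
        Nat.div_lt_self hpos (by omega)
      omega
    exact (Nat.coprime_comm.mp h4)
  obtain ⟨σ, τ⟩ := x
  have h5 : orderOf σ ∣ orderOf ((σ, τ) : Perm (Fin n) × DihedralGroup 4) := by
    rw [Prod.orderOf_mk]; exact Nat.dvd_lcm_left _ _
  have h6 : orderOf τ ∣ orderOf ((σ, τ) : Perm (Fin n) × DihedralGroup 4) := by
    rw [Prod.orderOf_mk]; exact Nat.dvd_lcm_right _ _
  exact isConj_prod (isConj_pow σ (h3.coprime_dvd_right h5)) (dih_rat τ (h3.coprime_dvd_right h6))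

/-- The exponent `r`. -/
theorem exists_r (n : ℕ) : ∃ r : ℕ, (∀ m, m ∣ n.factorial → ¬ 2 ∣ m → r ≡ 1 [MOD m]) ∧
    r ≡ 3 [MOD 4] := by
  have hc : (ordCompl[2] n.factorial).Coprime 4 := by
    have h1 := Nat.coprime_ordCompl Nat.prime_two (Nat.factorial_ne_zero n)
    have : (4 : ℕ) = 2 ^ 2 := rfl
    rw [this]
    exact Nat.Coprime.pow_right 2 h1.symm
  refine ⟨(Nat.chineseRemainder hc 1 3 : ℕ), ?_, (Nat.chineseRemainder hc 1 3).2.2⟩
  intro m hm h2
  have h3 : m ∣ ordCompl[2] n.factorial := by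
    have h4 : ordProj[2] n.factorial * ordCompl[2] n.factorial = n.factorial :=
      Nat.ordProj_mul_ordCompl_eq_self _ _
    rw [← h4] at hm
    have h5 : m.Coprime (ordProj[2] n.factorial) := by
      apply Nat.Coprime.pow_right
      exact ((Nat.Prime.coprime_iff_not_dvd Nat.prime_two).mpr h2).symm
    exact h5.dvd_of_dvd_mul_left hm
  exact (Nat.chineseRemainder hc 1 3).2.1.of_dvd h3

theorem del_cases {n : ℕ} (k : Perm (Fin n) × DihedralGroup 4) : del n k = 1 ∨ del n k = -1 :=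
  Int.units_eq_one_or _

/-- The group is uniformly semi-rational. -/
theorem semirational (n : ℕ) : ∃ m : ℤ, IsSemirationalWith (GG n) m := by
  obtain ⟨r, hr1, hr2⟩ := exists_r n
  refine ⟨r, ?_⟩
  rintro ⟨g, hg⟩ ⟨h, hh⟩ hgen
  have hgen' : Subgroup.zpowers h = Subgroup.zpowers g := by
    have := congrArg (Subgroup.map (GG n).subtype) hgen
    rw [MonoidHom.map_zpowers, MonoidHom.map_zpowers] at this
    exact this
  obtain ⟨k, hk⟩ := isConj_iff.mp (prod_rat g h hgen')
  rcases del_cases k with hk1 | hk1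
  · left
    exact isConj_iff.mpr ⟨⟨k, hk1⟩, Subtype.ext hk⟩
  -- it is enough to find suitable elements outside of the group
  have key1 : (∃ k₀, del n k₀ = -1 ∧ k₀ * g = g * k₀) →
      IsConj (⟨g, hg⟩ : GG n) ⟨h, hh⟩ := by
    rintro ⟨k₀, h1, h2⟩
    refine isConj_iff.mpr ⟨⟨k * k₀, ?_⟩, Subtype.ext ?_⟩
    · rw [MonoidHom.mem_ker, map_mul, hk1, h1]; rfl
    · change k * k₀ * g * (k * k₀)⁻¹ = h
      rw [← hk, mul_inv_rev, mul_assoc k, h2]
      group
  have key2 : (∃ k₀, del n k₀ = -1 ∧ k₀ * g * k₀⁻¹ = g ^ r) →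
      IsConj ((⟨g, hg⟩ : GG n) ^ (r : ℤ)) ⟨h, hh⟩ := by
    rintro ⟨k₀, h1, h2⟩
    refine isConj_iff.mpr ⟨⟨k * k₀⁻¹, ?_⟩, Subtype.ext ?_⟩
    · rw [MonoidHom.mem_ker, map_mul, map_inv, hk1, h1]; rfl
    · rw [zpow_natCast]
      change k * k₀⁻¹ * g ^ r * (k * k₀⁻¹)⁻¹ = h
      rw [← hk, ← h2]
      group
  obtain ⟨σ, τ⟩ := g
  rcases dih_dich τ with ⟨d, hd1, hd2⟩ | ⟨h4, d, hd1, hd2⟩
  · left
    refine key1 ⟨(1, d), ?_, ?_⟩
    · rw [del_apply, hd1]
      simp
    · exact Prod.ext (by simp) hd2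
  · by_cases ho : 2 ∣ orderOf σ
    · left
      obtain ⟨π, hπ1, hπ2⟩ := exists_odd_commute σ ho
      refine key1 ⟨(π, 1), ?_, ?_⟩
      · rw [del_apply, hπ1]
        simp
      · exact Prod.ext hπ2 (by simp)
    · right
      refine key2 ⟨(1, d), ?_, ?_⟩
      · rw [del_apply, hd1]
        simp
      · have hσ : σ ^ r = σ := by
          have hdvd : orderOf σ ∣ n.factorial := by
            have := orderOf_dvd_natCard σ
            rwa [Nat.card_perm, Nat.card_fin] at this
          have h5 := hr1 _ hdvd ho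
          conv_rhs => rw [← pow_one σ]
          exact pow_eq_pow_iff_modEq.mpr h5
        have hτ : τ ^ r = τ ^ 3 := by
          rw [pow_eq_pow_iff_modEq, h4]; exact hr2
        refine Prod.ext ?_ ?_
        · simp [hσ]
        · change d * τ * d⁻¹ = τ ^ r
          rw [hτ, hd2]

end Pool.Agent.Q99.SR
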