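import Mathlib

/-!
# Permutations: rationality of the symmetric groups, and the splitting elements
-/

set_option autoImplicit false

open Equiv Equiv.Perm

namespace Pool.Agent.Q99.SR

section rat

variable {α : Type*} [Fintype α] [DecidableEq α]

theorem cycleType_pow (σ : Perm α) : ∀ j : ℕ, j.Coprime (orderOf σ) →
    (σ ^ j).cycleType = σ.cycleType := by
  induction σ using cycle_induction_on with
  | base_one => intro j _; rw [one_pow]
  | base_cycles σ hσ =>
    intro j hj
    have h1 : (σ ^ j).IsCycle := hσ.pow_iff.mpr hj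
    rw [h1.cycleType, hσ.cycleType, support_pow_coprime hj]
  | induction_disjoint σ τ hd _ h1 h2 =>
    intro j hj
    rw [hd.orderOf] at hj
    rw [hd.commute.mul_pow, (hd.pow_disjoint_pow j j).cycleType_mul, hd.cycleType_mul,
      h1 j (hj.coprime_dvd_right (Nat.dvd_lcm_left _ _)),
      h2 j (hj.coprime_dvd_right (Nat.dvd_lcm_right _ _))]

theorem isConj_pow (σ : Perm α) {j : ℕ} (hj : j.Coprime (orderOf σ)) : IsConj σ (σ ^ j) :=
  isConj_iff_cycleType_eq.mpr (cycleType_pow σ j hj).symm

/-- An element of even order commutes with an odd permutation. -/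
theorem exists_odd_commute (σ : Perm α) (h : 2 ∣ orderOf σ) :
    ∃ π : Perm α, sign π = -1 ∧ π * σ = σ * π := by
  by_contra hn
  push Not at hn
  have h1 : Subgroup.centralizer {σ} ≤ alternatingGroup α := by
    intro π hπ
    rw [Subgroup.mem_centralizer_singleton_iff] at hπ
    rw [mem_alternatingGroup]
    rcases Int.units_eq_one_or (sign π) with h2 | h2
    · exact h2
    · exact absurd hπ (hn π h2)
  have h2 := OnCycleFactors.odd_of_centralizer_le_alternatingGroup h1
  rw [← lcm_cycleType] at h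
  have h3 : ∀ s : Multiset ℕ, (∀ i ∈ s, Odd i) → Odd s.lcm := by
    intro s
    induction s using Multiset.induction_on with
    | empty => intro _; simp
    | cons a s ih =>
      intro hs
      rw [Multiset.lcm_cons]
      have ha := hs a (Multiset.mem_cons_self a s)
      have hs' := ih fun i hi => hs i (Multiset.mem_cons_of_mem hi)
      have : lcm a s.lcm ∣ a * s.lcm := lcm_dvd_mul a s.lcm
      exact (ha.mul hs').of_dvd_nat this
  exact Nat.not_even_iff_odd.mpr (h3 _ h2) (even_iff_two_dvd.mpr h)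

end rat

section split

variable {p q : ℕ} [NeZero p] [NeZero q]

/-- The shift of `ZMod n`. -/
def rot (n : ℕ) : Perm (ZMod n) := Equiv.addRight 1

theorem rot_pow_apply (n k : ℕ) (x : ZMod n) : ((rot n) ^ k) x = x + k := by
  induction k with
  | zero => simp
  | succ k ih =>
    rw [pow_succ', Perm.mul_apply, ih]
    simp only [rot, Equiv.coe_addRight]
    push_cast; ring

theorem rot_pow_self (n : ℕ) : (rot n) ^ n = 1 := by
  ext x
  rw [rot_pow_apply]; simp

theorem sign_rot {n : ℕ} [NeZero n] (hn : Odd n) : sign (rot n) = 1 := by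
  have h1 : (sign (rot n)) ^ n = 1 := by rw [← map_pow, rot_pow_self, map_one]
  rcases Int.units_eq_one_or (sign (rot n)) with h | h
  · exact h
  · rw [h, hn.neg_one_pow] at h1
    exact absurd h1 (by decide)

theorem commute_rot {n : ℕ} [NeZero n] (α : Perm (ZMod n)) (h : α * rot n = rot n * α) :
    α = (rot n) ^ (α 0).val := by
  have h1 : ∀ x, α (x + 1) = α x + 1 := fun x => DFunLike.congr_fun h x
  have h2 : ∀ k : ℕ, α (k : ZMod n) = α 0 + k := by
    intro k
    induction k with
    | zero => simp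
    | succ k ih => push_cast; rw [h1, ih]; ring
  apply Equiv.ext
  intro x
  rw [rot_pow_apply, ZMod.natCast_val, ZMod.cast_id', id]
  have h3 := h2 x.val
  rw [ZMod.natCast_val, ZMod.cast_id', id] at h3
  rw [h3, add_comm]

theorem sign_commute_rot {n : ℕ} [NeZero n] (hn : Odd n) (α : Perm (ZMod n))
    (h : α * rot n = rot n * α) : sign α = 1 := by
  rw [commute_rot α h, map_pow, sign_rot hn, one_pow]

/-- Multiplication by the unit `u`. -/
def mulU {n : ℕ} (u : (ZMod n)ˣ) : Perm (ZMod n) := Units.mulLeft u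

theorem mulU_conj {n : ℕ} [NeZero n] (u : (ZMod n)ˣ) {j : ℕ} (hj : (j : ZMod n) = u) :
    mulU u * rot n = (rot n) ^ j * mulU u := by
  apply Equiv.ext
  intro x
  rw [Perm.mul_apply, Perm.mul_apply, rot_pow_apply]
  change (u : ZMod n) * (x + 1) = (u : ZMod n) * x + j
  rw [hj]; ring

theorem sign_mulU {p : ℕ} [hp : Fact p.Prime] (h2 : p ≠ 2) (u : (ZMod p)ˣ)
    (hu : ∀ v : (ZMod p)ˣ, v ∈ Subgroup.zpowers u) : sign (mulU u) = -1 := by
  have hpow : ∀ (k : ℤ) (x : ZMod p), ((mulU u) ^ k) x = ((u ^ k : (ZMod p)ˣ) : ZMod p) * x := by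
    intro k x
    have : (MulAction.toPermHom (ZMod p)ˣ (ZMod p)) u = mulU u := by
      ext x; rfl
    rw [← this, ← map_zpow]
    rfl
  have hodd : Odd p := hp.out.odd_of_ne_two h2
  have hsupp : (mulU u).support = Finset.univ.erase 0 := by
    ext x
    rw [mem_support, Finset.mem_erase]
    constructor
    · intro h
      refine ⟨?_, Finset.mem_univ _⟩
      rintro rfl
      apply h
      change (u : ZMod p) * 0 = 0
      rw [mul_zero]
    · rintro ⟨h, -⟩ h1
      have h3 : (u : ZMod p) * x = 1 * x := by rw [one_mul]; exact h1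
      have h4 : (u : ZMod p) = 1 := mul_right_cancel₀ h h3
      have h5 : u = 1 := Units.ext h4
      have h6 : (-1 : (ZMod p)ˣ) = 1 := by
        have := hu (-1)
        rw [h5, Subgroup.zpowers_one_eq_bot, Subgroup.mem_bot] at this
        exact this
      have h7 : (-1 : ZMod p) = 1 := by
        have := congrArg (Units.val) h6
        simpa using this
      haveI : Fact (2 < p) := ⟨by have := hp.out.two_le; omega⟩
      exact ZMod.neg_one_ne_one h7
  have hcyc : (mulU u).IsCycle := by
    refine ⟨1, ?_, ?_⟩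
    · rw [← mem_support, hsupp, Finset.mem_erase]
      exact ⟨one_ne_zero, Finset.mem_univ _⟩
    · intro y hy
      rw [← mem_support, hsupp, Finset.mem_erase] at hy
      obtain ⟨k, hk⟩ := Subgroup.mem_zpowers_iff.mp (hu (Units.mk0 y hy.1))
      refine ⟨k, ?_⟩
      rw [hpow, hk, Units.val_mk0, mul_one]
  rw [hcyc.sign, hsupp, Finset.card_erase_of_mem (Finset.mem_univ _), Finset.card_univ, ZMod.card]
  have : Even (p - 1) := by
    rcases hodd with ⟨m, hm⟩
    exact ⟨m, by omega⟩
  rw [this.neg_one_pow]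

/-- The element of type `(p, q)`. -/
def el (p q : ℕ) : Perm (ZMod p ⊕ ZMod q) := Perm.sumCongr (rot p) (rot q)

theorem el_pow (p q k : ℕ) : (el p q) ^ k = Perm.sumCongr ((rot p) ^ k) ((rot q) ^ k) := by
  induction k with
  | zero => rw [pow_zero, pow_zero, pow_zero, sumCongr_one]
  | succ k ih => rw [pow_succ, ih, pow_succ, pow_succ, el, sumCongr_mul]

omit [NeZero p] [NeZero q] in
theorem rot_pow_of_modEq {n k : ℕ} (h : k ≡ 1 [MOD n]) : (rot n) ^ k = rot n := by
  apply Equiv.ext
  intro x
  rw [rot_pow_apply, (ZMod.natCast_eq_natCast_iff _ _ _).mpr h]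
  simp [rot]

theorem sign_el (hp : Odd p) (hq : Odd q) : sign (el p q) = 1 := by
  rw [el, sign_sumCongr, sign_rot hp, sign_rot hq, one_mul]

theorem sign_of_commute_el (hp : Odd p) (hq : Odd q) (hpq : ¬ p ∣ q)
    (ρ : Perm (ZMod p ⊕ ZMod q)) (h : ρ * el p q = el p q * ρ) : sign ρ = 1 := by
  have h1 : ρ * (el p q) ^ q = (el p q) ^ q * ρ := (Commute.pow_right (h : Commute ρ (el p q)) q).eq
  rw [el_pow, rot_pow_self q] at h1
  have h2 : Set.MapsTo ρ (Set.range Sum.inl) (Set.range Sum.inl) := by
    rintro _ ⟨x, rfl⟩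
    cases hρ : ρ (Sum.inl x) with
    | inl y => exact ⟨y, rfl⟩
    | inr y =>
      exfalso
      have h3 := DFunLike.congr_fun h1 (Sum.inl x)
      rw [Perm.mul_apply, Perm.mul_apply, hρ] at h3
      simp only [Perm.sumCongr_apply, Sum.map_inl, Sum.map_inr, Perm.one_apply] at h3
      rw [← hρ] at h3
      have h4 := Sum.inl_injective (ρ.injective h3)
      rw [rot_pow_apply] at h4
      have h5 : (q : ZMod p) = 0 := by simpa using h4
      exact hpq ((ZMod.natCast_eq_zero_iff q p).mp h5)
  obtain ⟨⟨α, β⟩, hαβ⟩ := mem_sumCongrHom_range_of_perm_mapsTo_inl h2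
  have hρ : ρ = Perm.sumCongr α β := hαβ.symm
  rw [hρ, el, sumCongr_mul, sumCongr_mul] at h
  have h3 : (α * rot p, β * rot q) = (rot p * α, rot q * β) :=
    sumCongrHom_injective (by exact h)
  rw [Prod.mk.injEq] at h3
  rw [hρ, sign_sumCongr, sign_commute_rot hp α h3.1, sign_commute_rot hq β h3.2, one_mul]

/-- The key point: if `j` is a primitive root modulo `p` and `1` modulo `q`, then only odd
permutations conjugate the element to its `j`-th power. -/
theorem sign_of_conj [hp : Fact p.Prime] (h2 : p ≠ 2) (hq : Odd q) (hpq : ¬ p ∣ q) {j : ℕ}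
    (u : (ZMod p)ˣ) (hu : ∀ v : (ZMod p)ˣ, v ∈ Subgroup.zpowers u) (hj : (j : ZMod p) = u)
    (hjq : j ≡ 1 [MOD q]) (π : Perm (ZMod p ⊕ ZMod q)) (h : π * el p q = (el p q) ^ j * π) :
    sign π = -1 := by
  let μ : Perm (ZMod p ⊕ ZMod q) := Perm.sumCongr (mulU u) 1
  have h3 : μ * el p q = (el p q) ^ j * μ := by
    rw [el_pow, el, sumCongr_mul, sumCongr_mul, mulU_conj u hj, rot_pow_of_modEq hjq, one_mul,
      mul_one]
  have h4 : sign μ = -1 := by
    rw [sign_sumCongr, sign_mulU h2 u hu, Perm.sign_one, mul_one]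
  have h5 : (μ⁻¹ * π) * el p q = el p q * (μ⁻¹ * π) := by
    rw [mul_assoc, h, ← mul_assoc, ← mul_assoc]
    congr 1
    rw [inv_mul_eq_iff_eq_mul, ← mul_assoc, h3, mul_assoc, mul_inv_cancel, mul_one]
  have h6 := sign_of_commute_el (hp.out.odd_of_ne_two h2) hq hpq _ h5
  rw [Perm.sign_mul, Perm.sign_inv, h4] at h6
  rcases Int.units_eq_one_or (sign π) with h7 | h7
  · rw [h7] at h6
    exact absurd h6 (by decide)
  · exact h7

end split

end Pool.Agent.Q99.SR
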